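import Mathlib
import Pool.Agent.W181.WH.Stm

/-!
EXCH (subtask of helper181, project WH).
-/

set_option autoImplicit false

open MeasureTheory Set
open scoped ENNReal

namespace Pool.Agent.W291.WH

open Pool.Agent.W181.WH

abbrev Mt (m : ℕ) := Fin m → Fin m → ℝ

/-- density of the square -/
noncomputable def rho (a : ℝ) : ℝ≥0∞ := if 0 < a then ENNReal.ofReal (1 / (2 * Real.sqrt a)) else 0

lemma rho_meas : Measurable rho := by
  unfold rho
  refine Measurable.ite measurableSet_Ioi ?_ measurable_const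
  exact ENNReal.measurable_ofReal.comp (by fun_prop)

lemma rho_ne_top (a : ℝ) : rho a ≠ ∞ := by
  unfold rho; split_ifs
  · exact ENNReal.ofReal_ne_top
  · exact ENNReal.zero_ne_top

lemma rho_symm (a d c : ℝ) : rho a * rho (d - c ^ 2 / a) = rho d * rho (a - c ^ 2 / d) ∧
    (rho a * rho (d - c ^ 2 / a) ≠ 0 → 0 < a ∧ 0 < d ∧ c ^ 2 < a * d) := by
  have key : ∀ a d c : ℝ, rho a * rho (d - c ^ 2 / a) =
      if 0 < a ∧ 0 < d ∧ c ^ 2 < a * d then
        ENNReal.ofReal (1 / (4 * Real.sqrt (a * d - c ^ 2))) else 0 := by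
    intro a d c
    by_cases ha : 0 < a
    · have h1 : 0 < d - c ^ 2 / a ↔ c ^ 2 < a * d := by
        rw [sub_pos, div_lt_iff₀ ha, mul_comm d a]
      by_cases h2 : c ^ 2 < a * d
      · have hd : 0 < d := by
          by_contra hd
          push Not at hd
          nlinarith [sq_nonneg c]
        rw [if_pos ⟨ha, hd, h2⟩]
        unfold rho
        rw [if_pos ha, if_pos (h1.2 h2), ← ENNReal.ofReal_mul (by positivity)]
        congr 1
        have e : a * d - c ^ 2 = a * (d - c ^ 2 / a) := by field_simp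
        rw [e, Real.sqrt_mul ha.le]
        have h3 : 0 < Real.sqrt a := Real.sqrt_pos.2 ha
        have h4 : 0 < Real.sqrt (d - c ^ 2 / a) := Real.sqrt_pos.2 (h1.2 h2)
        field_simp
        norm_num
      · rw [if_neg (fun h => h2 h.2.2)]
        unfold rho
        rw [if_neg (fun h => h2 (h1.1 h)), mul_zero]
    · rw [if_neg (fun h => ha h.1)]
      unfold rho
      rw [if_neg ha, zero_mul]
  refine ⟨?_, ?_⟩
  · rw [key, key]
    have : (0 < a ∧ 0 < d ∧ c ^ 2 < a * d) ↔ (0 < d ∧ 0 < a ∧ c ^ 2 < d * a) := by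
      rw [mul_comm a d]; tauto
    simp only [this, mul_comm d a]
  · intro h
    rw [key] at h
    by_contra hcon
    rw [if_neg hcon] at h
    exact h rfl

/-- measure on the first row -/
noncomputable def kap (m : ℕ) : Measure (ℝ × (Fin m → ℝ)) :=
  (volume : Measure (ℝ × (Fin m → ℝ))).withDensity (fun q => rho q.1)

instance (m : ℕ) : SFinite (kap m) := by unfold kap; infer_instance

/-- add a first row and column -/
noncomputable def fF {m : ℕ} (p : (ℝ × (Fin m → ℝ)) × Mt m) : Mt (m + 1) := fun i j =>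
  Fin.cases (motive := fun _ => ℝ) (Fin.cases (motive := fun _ => ℝ) p.1.1 p.1.2 j)
    (fun i' => Fin.cases (motive := fun _ => ℝ) (p.1.2 i')
      (fun j' => p.2 i' j' + p.1.2 i' * p.1.2 j' / p.1.1) j) i

/-- add a last row and column -/
noncomputable def fG {m : ℕ} (p : (ℝ × (Fin m → ℝ)) × Mt m) : Mt (m + 1) := fun i j =>
  Fin.lastCases (motive := fun _ => ℝ) (Fin.lastCases (motive := fun _ => ℝ) p.1.1 p.1.2 j)
    (fun i' => Fin.lastCases (motive := fun _ => ℝ) (p.1.2 i')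
      (fun j' => p.2 i' j' + p.1.2 i' * p.1.2 j' / p.1.1) j) i

section
variable {m : ℕ} (p : (ℝ × (Fin m → ℝ)) × Mt m) (i j : Fin m)

@[simp] lemma fF00 : fF p 0 0 = p.1.1 := rfl
@[simp] lemma fF0s : fF p 0 j.succ = p.1.2 j := rfl
@[simp] lemma fFs0 : fF p i.succ 0 = p.1.2 i := rfl
@[simp] lemma fFss : fF p i.succ j.succ = p.2 i j + p.1.2 i * p.1.2 j / p.1.1 := rfl
@[simp] lemma fG00 : fG p (Fin.last m) (Fin.last m) = p.1.1 := by simp [fG]
@[simp] lemma fG0s : fG p (Fin.last m) j.castSucc = p.1.2 j := by simp [fG]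
@[simp] lemma fGs0 : fG p i.castSucc (Fin.last m) = p.1.2 i := by simp [fG]
@[simp] lemma fGss : fG p i.castSucc j.castSucc = p.2 i j + p.1.2 i * p.1.2 j / p.1.1 := by
  simp [fG]
end

lemma fF_meas (m : ℕ) : Measurable (fF (m := m)) := by
  refine measurable_pi_iff.2 fun i => measurable_pi_iff.2 fun j => ?_
  refine Fin.cases ?_ (fun i' => ?_) i <;> refine Fin.cases ?_ (fun j' => ?_) j
  · simp only [fF00]; fun_prop
  · simp only [fF0s]; fun_prop
  · simp only [fFs0]; fun_prop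
  · simp only [fFss]; fun_prop

lemma fG_meas (m : ℕ) : Measurable (fG (m := m)) := by
  refine measurable_pi_iff.2 fun i => measurable_pi_iff.2 fun j => ?_
  refine Fin.lastCases ?_ (fun i' => ?_) i <;> refine Fin.lastCases ?_ (fun j' => ?_) j
  · simp only [fG00]; fun_prop
  · simp only [fG0s]; fun_prop
  · simp only [fGs0]; fun_prop
  · simp only [fGss]; fun_prop

/-- the two ways to add a first and a last row -/
lemma FG_eq {m : ℕ} (a c d : ℝ) (b e : Fin m → ℝ) (C : Mt m) (ha : 0 < a) (hd : 0 < d)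
    (hc : c ^ 2 < a * d) :
    fF ((a, Fin.snoc b c), fG ((d - c ^ 2 / a, e - (c / a) • b), C)) =
      fG ((d, Fin.cons c e), fF ((a - c ^ 2 / d, b - (c / d) • e), C)) := by
  have h1 : a * d - c ^ 2 ≠ 0 := by linarith
  have h2 : d - c ^ 2 / a ≠ 0 := by
    have : d - c ^ 2 / a = (a * d - c ^ 2) / a := by field_simp
    rw [this]; exact div_ne_zero h1 ha.ne'
  have h3 : a - c ^ 2 / d ≠ 0 := by
    have : a - c ^ 2 / d = (a * d - c ^ 2) / d := by field_simp
    rw [this]; exact div_ne_zero h1 hd.ne'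
  have e2 : d - c ^ 2 / a = (a * d - c ^ 2) / a := by field_simp
  have e3 : a - c ^ 2 / d = (a * d - c ^ 2) / d := by field_simp
  set X : Mt (m + 1) := fG ((d - c ^ 2 / a, e - (c / a) • b), C) with hX
  set Y : Mt (m + 1) := fF ((a - c ^ 2 / d, b - (c / d) • e), C) with hY
  have X00 : X (Fin.last m) (Fin.last m) = d - c ^ 2 / a := by rw [hX, fG00]
  have X0s : ∀ j : Fin m, X (Fin.last m) j.castSucc = e j - c / a * b j := by
    intro j; rw [hX, fG0s]; rfl
  have Xs0 : ∀ j : Fin m, X j.castSucc (Fin.last m) = e j - c / a * b j := by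
    intro j; rw [hX, fGs0]; rfl
  have Xss : ∀ i j : Fin m, X i.castSucc j.castSucc = C i j + (e i - c / a * b i) *
      (e j - c / a * b j) / (d - c ^ 2 / a) := by
    intro i j; rw [hX, fGss]; rfl
  have Y00 : Y 0 0 = a - c ^ 2 / d := by rw [hY, fF00]
  have Y0s : ∀ j : Fin m, Y 0 j.succ = b j - c / d * e j := by
    intro j; rw [hY, fF0s]; rfl
  have Ys0 : ∀ j : Fin m, Y j.succ 0 = b j - c / d * e j := by
    intro j; rw [hY, fFs0]; rfl
  have Yss : ∀ i j : Fin m, Y i.succ j.succ = C i j + (b i - c / d * e i) *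
      (b j - c / d * e j) / (a - c ^ 2 / d) := by
    intro i j; rw [hY, fFss]; rfl
  clear_value X Y
  have L00 := fF00 ((a, (Fin.snoc b c : Fin (m + 1) → ℝ)), X)
  have L0s := fun j => fF0s ((a, (Fin.snoc b c : Fin (m + 1) → ℝ)), X) j
  have Ls0 := fun j => fFs0 ((a, (Fin.snoc b c : Fin (m + 1) → ℝ)), X) j
  have Lss := fun i j => fFss ((a, (Fin.snoc b c : Fin (m + 1) → ℝ)), X) i j
  have R00 := fG00 ((d, (Fin.cons c e : Fin (m + 1) → ℝ)), Y)
  have R0s := fun j => fG0s ((d, (Fin.cons c e : Fin (m + 1) → ℝ)), Y) j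
  have Rs0 := fun j => fGs0 ((d, (Fin.cons c e : Fin (m + 1) → ℝ)), Y) j
  have Rss := fun i j => fGss ((d, (Fin.cons c e : Fin (m + 1) → ℝ)), Y) i j
  simp only at L00 L0s Ls0 Lss R00 R0s Rs0 Rss
  funext i j
  refine Fin.cases ?_ (fun i1 => ?_) i
  · -- row 0
    refine Fin.cases ?_ (fun j1 => ?_) j
    · have := Rss 0 0
      rw [Fin.castSucc_zero] at this
      rw [L00, this, Y00, Fin.cons_zero]
      ring
    · refine Fin.lastCases ?_ (fun j2 => ?_) j1
      · have := Rs0 0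
        rw [Fin.castSucc_zero] at this
        rw [L0s, Fin.snoc_last, Fin.succ_last, this, Fin.cons_zero]
      · have := Rss 0 j2.succ
        rw [Fin.castSucc_zero] at this
        rw [L0s, Fin.snoc_castSucc, Fin.succ_castSucc, this, Y0s, Fin.cons_zero, Fin.cons_succ]
        ring
  · refine Fin.lastCases ?_ (fun i2 => ?_) i1
    · -- last row
      refine Fin.cases ?_ (fun j1 => ?_) j
      · have := R0s 0
        rw [Fin.castSucc_zero] at this
        rw [Ls0, Fin.snoc_last, Fin.succ_last, this, Fin.cons_zero]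
      · refine Fin.lastCases ?_ (fun j2 => ?_) j1
        · rw [Lss, X00, Fin.snoc_last, Fin.succ_last, R00]
          ring
        · rw [Lss, X0s, Fin.snoc_last, Fin.snoc_castSucc, Fin.succ_last, Fin.succ_castSucc, R0s,
            Fin.cons_succ]
          ring
    · -- middle row
      refine Fin.cases ?_ (fun j1 => ?_) j
      · have := Rss i2.succ 0
        rw [Fin.castSucc_zero] at this
        rw [Ls0, Fin.snoc_castSucc, Fin.succ_castSucc, this, Ys0, Fin.cons_zero, Fin.cons_succ]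
        ring
      · refine Fin.lastCases ?_ (fun j2 => ?_) j1
        · rw [Lss, Xs0, Fin.snoc_last, Fin.snoc_castSucc, Fin.succ_last, Fin.succ_castSucc, Rs0,
            Fin.cons_succ]
          ring
        · rw [Lss, Xss, Fin.snoc_castSucc, Fin.snoc_castSucc, Fin.succ_castSucc,
            Fin.succ_castSucc, Rss, Yss, Fin.cons_succ, Fin.cons_succ, e2, e3]
          field_simp
          ring

/-! ### commutation of the two steps -/

lemma meas_snoc (m : ℕ) :
    Measurable (fun p : (Fin m → ℝ) × ℝ => (Fin.snoc p.1 p.2 : Fin (m + 1) → ℝ)) := by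
  refine measurable_pi_iff.2 fun i => ?_
  refine Fin.lastCases ?_ (fun i' => ?_) i
  · simp only [Fin.snoc_last]; fun_prop
  · simp only [Fin.snoc_castSucc]; fun_prop

lemma meas_cons (m : ℕ) :
    Measurable (fun p : (Fin m → ℝ) × ℝ => (Fin.cons p.2 p.1 : Fin (m + 1) → ℝ)) := by
  refine measurable_pi_iff.2 fun i => ?_
  refine Fin.cases ?_ (fun i' => ?_) i
  · simp only [Fin.cons_zero]; fun_prop
  · simp only [Fin.cons_succ]; fun_prop

lemma lint_snoc {m : ℕ} (H : (Fin (m + 1) → ℝ) → ℝ≥0∞) (hH : Measurable H) :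
    ∫⁻ b, H b = ∫⁻ b1 : Fin m → ℝ, ∫⁻ c : ℝ, H (Fin.snoc b1 c) := by
  have h := (volume_preserving_piFinSuccAbove (fun _ : Fin (m + 1) => ℝ) (Fin.last m)).symm
  have e : ∀ p : ℝ × (Fin m → ℝ),
      (MeasurableEquiv.piFinSuccAbove (fun _ : Fin (m + 1) => ℝ) (Fin.last m)).symm p =
        (Fin.snoc p.2 p.1 : Fin (m + 1) → ℝ) := by
    intro p
    exact Fin.insertNth_last' p.1 p.2
  rw [← h.lintegral_comp hH]
  simp only [e]
  have hm : Measurable (fun p : ℝ × (Fin m → ℝ) => H (Fin.snoc p.2 p.1)) :=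
    hH.comp ((meas_snoc m).comp measurable_swap)
  rw [Measure.volume_eq_prod, lintegral_prod_symm _ hm.aemeasurable]

lemma lint_cons {m : ℕ} (H : (Fin (m + 1) → ℝ) → ℝ≥0∞) (hH : Measurable H) :
    ∫⁻ b, H b = ∫⁻ b1 : Fin m → ℝ, ∫⁻ c : ℝ, H (Fin.cons c b1) := by
  have h := (volume_preserving_piFinSuccAbove (fun _ : Fin (m + 1) => ℝ) 0).symm
  have e : ∀ p : ℝ × (Fin m → ℝ),
      (MeasurableEquiv.piFinSuccAbove (fun _ : Fin (m + 1) => ℝ) 0).symm p =
        (Fin.cons p.1 p.2 : Fin (m + 1) → ℝ) := by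
    intro p
    exact Fin.insertNth_zero' p.1 p.2
  rw [← h.lintegral_comp hH]
  simp only [e]
  have hm : Measurable (fun p : ℝ × (Fin m → ℝ) => H (Fin.cons p.1 p.2)) :=
    hH.comp ((meas_cons m).comp measurable_swap)
  rw [Measure.volume_eq_prod, lintegral_prod_symm _ hm.aemeasurable]

lemma lint_kap {m : ℕ} (H : ℝ × (Fin m → ℝ) → ℝ≥0∞) (hH : Measurable H) :
    ∫⁻ q, H q ∂kap m = ∫⁻ q : ℝ × (Fin m → ℝ), rho q.1 * H q := by
  unfold kap
  rw [lintegral_withDensity_eq_lintegral_mul _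
    (show Measurable (fun q : ℝ × (Fin m → ℝ) => rho q.1) from rho_meas.comp measurable_fst) hH]
  rfl

lemma lint_kapS {m : ℕ} (H : ℝ × (Fin (m + 1) → ℝ) → ℝ≥0∞) (hH : Measurable H) :
    ∫⁻ q, H q ∂kap (m + 1) = ∫⁻ p : ℝ × (Fin m → ℝ), ∫⁻ c : ℝ,
      rho p.1 * H (p.1, Fin.snoc p.2 c) := by
  have hr : Measurable (fun q : ℝ × (Fin (m + 1) → ℝ) => rho q.1 * H q) :=
    (rho_meas.comp measurable_fst).mul hH
  rw [lint_kap H hH, Measure.volume_eq_prod, lintegral_prod _ hr.aemeasurable]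
  have e : ∀ a : ℝ, ∫⁻ b : Fin (m + 1) → ℝ, rho a * H (a, b) =
      ∫⁻ b1 : Fin m → ℝ, ∫⁻ c : ℝ, rho a * H (a, Fin.snoc b1 c) := fun a =>
    lint_snoc (fun b => rho a * H (a, b)) (hr.comp (measurable_const.prodMk measurable_id))
  simp only [e]
  have hm : Measurable (fun q : (ℝ × (Fin m → ℝ)) × ℝ =>
      rho q.1.1 * H (q.1.1, Fin.snoc q.1.2 q.2)) :=
    hr.comp ((measurable_fst.comp measurable_fst).prodMk
      ((meas_snoc m).comp ((measurable_snd.comp measurable_fst).prodMk measurable_snd)))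
  rw [Measure.volume_eq_prod, lintegral_prod _ (hm.lintegral_prod_right (ν := volume)).aemeasurable]

lemma lint_kapC {m : ℕ} (H : ℝ × (Fin (m + 1) → ℝ) → ℝ≥0∞) (hH : Measurable H) :
    ∫⁻ q, H q ∂kap (m + 1) = ∫⁻ p : ℝ × (Fin m → ℝ), ∫⁻ c : ℝ,
      rho p.1 * H (p.1, Fin.cons c p.2) := by
  have hr : Measurable (fun q : ℝ × (Fin (m + 1) → ℝ) => rho q.1 * H q) :=
    (rho_meas.comp measurable_fst).mul hH
  rw [lint_kap H hH, Measure.volume_eq_prod, lintegral_prod _ hr.aemeasurable]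
  have e : ∀ a : ℝ, ∫⁻ b : Fin (m + 1) → ℝ, rho a * H (a, b) =
      ∫⁻ b1 : Fin m → ℝ, ∫⁻ c : ℝ, rho a * H (a, Fin.cons c b1) := fun a =>
    lint_cons (fun b => rho a * H (a, b)) (hr.comp (measurable_const.prodMk measurable_id))
  simp only [e]
  have hm : Measurable (fun q : (ℝ × (Fin m → ℝ)) × ℝ =>
      rho q.1.1 * H (q.1.1, Fin.cons q.2 q.1.2)) :=
    hr.comp ((measurable_fst.comp measurable_fst).prodMk
      ((meas_cons m).comp ((measurable_snd.comp measurable_fst).prodMk measurable_snd)))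
  rw [Measure.volume_eq_prod, lintegral_prod _ (hm.lintegral_prod_right (ν := volume)).aemeasurable]

/-- add a first row and column, measure version -/
noncomputable def opF {m : ℕ} (ν : Measure (Mt m)) : Measure (Mt (m + 1)) :=
  Measure.map fF ((kap m).prod ν)

/-- add a last row and column, measure version -/
noncomputable def opG {m : ℕ} (ν : Measure (Mt m)) : Measure (Mt (m + 1)) :=
  Measure.map fG ((kap m).prod ν)

instance {m : ℕ} (ν : Measure (Mt m)) [SFinite ν] : SFinite (opF ν) := by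
  unfold opF; infer_instance
instance {m : ℕ} (ν : Measure (Mt m)) [SFinite ν] : SFinite (opG ν) := by
  unfold opG; infer_instance

lemma inv_trans (m : ℕ) : (volume : Measure (ℝ × (Fin m → ℝ))).IsAddRightInvariant := by
  rw [Measure.volume_eq_prod]; infer_instance

lemma swap3 {α β : Type*} [MeasurableSpace α] [MeasurableSpace β] (μ : Measure α) (ν : Measure β)
    [SFinite μ] [SFinite ν] (Θ : α × ℝ × β → ℝ≥0∞) (h : Measurable Θ) :
    ∫⁻ p, ∫⁻ c, ∫⁻ q, Θ (p, c, q) ∂ν ∂volume ∂μ = ∫⁻ q, ∫⁻ c, ∫⁻ p, Θ (p, c, q) ∂μ ∂volume ∂ν := by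
  have h1 : ∀ p, ∫⁻ c, ∫⁻ q, Θ (p, c, q) ∂ν = ∫⁻ q, ∫⁻ c, Θ (p, c, q) ∂volume ∂ν := by
    intro p
    exact lintegral_lintegral_swap (f := fun c q => Θ (p, c, q))
      ((h.comp (measurable_const.prodMk measurable_id)).aemeasurable)
  have h2 : ∀ q, ∫⁻ p, ∫⁻ c, Θ (p, c, q) ∂volume ∂μ = ∫⁻ c, ∫⁻ p, Θ (p, c, q) ∂μ := by
    intro q
    refine lintegral_lintegral_swap (f := fun p c => Θ (p, c, q)) ?_
    have : Measurable (fun x : α × ℝ => Θ (x.1, x.2, q)) :=
      h.comp (measurable_fst.prodMk (measurable_snd.prodMk measurable_const))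
    exact this.aemeasurable
  calc ∫⁻ p, ∫⁻ c, ∫⁻ q, Θ (p, c, q) ∂ν ∂volume ∂μ
      = ∫⁻ p, ∫⁻ q, ∫⁻ c, Θ (p, c, q) ∂volume ∂ν ∂μ := lintegral_congr h1
    _ = ∫⁻ q, ∫⁻ p, ∫⁻ c, Θ (p, c, q) ∂volume ∂μ ∂ν := by
        refine lintegral_lintegral_swap (f := fun p q => ∫⁻ c, Θ (p, c, q) ∂volume) ?_
        have : Measurable (fun x : (α × β) × ℝ => Θ (x.1.1, x.2, x.1.2)) :=
          h.comp ((measurable_fst.comp measurable_fst).prodMk
            (measurable_snd.prodMk (measurable_snd.comp measurable_fst)))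
        exact (this.lintegral_prod_right (ν := volume)).aemeasurable
    _ = _ := lintegral_congr h2

theorem opFG {m : ℕ} (ν : Measure (Mt m)) [SFinite ν] : opF (opG ν) = opG (opF ν) := by
  have := inv_trans m
  refine Measure.ext_of_lintegral _ fun φ hφ => ?_
  -- left side
  have hL : ∀ x : ℝ × (Fin (m + 1) → ℝ), ∫⁻ C, φ (fF (x, C)) ∂(opG ν) =
      ∫⁻ q : ℝ × (Fin m → ℝ), rho q.1 * ∫⁻ C0, φ (fF (x, fG (q, C0))) ∂ν := by
    intro x
    have h1 : Measurable (fun C : Mt (m + 1) => φ (fF (x, C))) :=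
      hφ.comp ((fF_meas _).comp (measurable_const.prodMk measurable_id))
    have h2 : Measurable (fun y : (ℝ × (Fin m → ℝ)) × Mt m => φ (fF (x, fG y))) :=
      h1.comp (fG_meas m)
    unfold opG
    rw [lintegral_map h1 (fG_meas m), lintegral_prod _ h2.aemeasurable,
      lint_kap _ (h2.lintegral_prod_right (ν := ν))]
  have hR : ∀ x : ℝ × (Fin (m + 1) → ℝ), ∫⁻ C, φ (fG (x, C)) ∂(opF ν) =
      ∫⁻ q : ℝ × (Fin m → ℝ), rho q.1 * ∫⁻ C0, φ (fG (x, fF (q, C0))) ∂ν := by
    intro x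
    have h1 : Measurable (fun C : Mt (m + 1) => φ (fG (x, C))) :=
      hφ.comp ((fG_meas _).comp (measurable_const.prodMk measurable_id))
    have h2 : Measurable (fun y : (ℝ × (Fin m → ℝ)) × Mt m => φ (fG (x, fF y))) :=
      h1.comp (fF_meas m)
    unfold opF
    rw [lintegral_map h1 (fF_meas m), lintegral_prod _ h2.aemeasurable,
      lint_kap _ (h2.lintegral_prod_right (ν := ν))]
  have L1 : ∫⁻ x, φ x ∂(opF (opG ν)) = ∫⁻ p : ℝ × (Fin m → ℝ), ∫⁻ c : ℝ,
      ∫⁻ q : ℝ × (Fin m → ℝ), rho p.1 * (rho (q.1 - c ^ 2 / p.1) *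
        ∫⁻ C0, φ (fF ((p.1, Fin.snoc p.2 c),
          fG ((q.1 - c ^ 2 / p.1, q.2 - (c / p.1) • p.2), C0))) ∂ν) := by
    have h1 : Measurable (fun y : (ℝ × (Fin (m + 1) → ℝ)) × Mt (m + 1) => φ (fF y)) :=
      hφ.comp (fF_meas _)
    rw [opF, lintegral_map hφ (fF_meas _), lintegral_prod _ h1.aemeasurable,
      lint_kapS _ (h1.lintegral_prod_right (ν := opG ν))]
    refine lintegral_congr fun p => lintegral_congr fun c => ?_
    rw [lintegral_const_mul' _ _ (rho_ne_top _), hL]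
    congr 1
    exact (lintegral_sub_right_eq_self (μ := (volume : Measure (ℝ × (Fin m → ℝ))))
      (fun q => rho q.1 * ∫⁻ C0, φ (fF ((p.1, Fin.snoc p.2 c), fG (q, C0))) ∂ν)
      (c ^ 2 / p.1, (c / p.1) • p.2)).symm
  have R1 : ∫⁻ x, φ x ∂(opG (opF ν)) = ∫⁻ q : ℝ × (Fin m → ℝ), ∫⁻ c : ℝ,
      ∫⁻ p : ℝ × (Fin m → ℝ), rho q.1 * (rho (p.1 - c ^ 2 / q.1) *
        ∫⁻ C0, φ (fG ((q.1, Fin.cons c q.2),
          fF ((p.1 - c ^ 2 / q.1, p.2 - (c / q.1) • q.2), C0))) ∂ν) := by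
    have h1 : Measurable (fun y : (ℝ × (Fin (m + 1) → ℝ)) × Mt (m + 1) => φ (fG y)) :=
      hφ.comp (fG_meas _)
    rw [opG, lintegral_map hφ (fG_meas _), lintegral_prod _ h1.aemeasurable,
      lint_kapC _ (h1.lintegral_prod_right (ν := opF ν))]
    refine lintegral_congr fun p => lintegral_congr fun c => ?_
    rw [lintegral_const_mul' _ _ (rho_ne_top _), hR]
    congr 1
    exact (lintegral_sub_right_eq_self (μ := (volume : Measure (ℝ × (Fin m → ℝ))))
      (fun q => rho q.1 * ∫⁻ C0, φ (fG ((p.1, Fin.cons c p.2), fF (q, C0))) ∂ν)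
      (c ^ 2 / p.1, (c / p.1) • p.2)).symm
  -- joint measurability
  have hΘ : Measurable (fun x : (ℝ × (Fin m → ℝ)) × ℝ × (ℝ × (Fin m → ℝ)) =>
      rho x.1.1 * (rho (x.2.2.1 - x.2.1 ^ 2 / x.1.1) *
        ∫⁻ C0, φ (fF ((x.1.1, Fin.snoc x.1.2 x.2.1),
          fG ((x.2.2.1 - x.2.1 ^ 2 / x.1.1, x.2.2.2 - (x.2.1 / x.1.1) • x.1.2), C0))) ∂ν)) := by
    have g1 : Measurable (fun x : ((ℝ × (Fin m → ℝ)) × ℝ × (ℝ × (Fin m → ℝ))) × Mt m =>
        φ (fF ((x.1.1.1, Fin.snoc x.1.1.2 x.1.2.1),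
          fG ((x.1.2.2.1 - x.1.2.1 ^ 2 / x.1.1.1, x.1.2.2.2 - (x.1.2.1 / x.1.1.1) • x.1.1.2),
            x.2)))) := by
      refine hφ.comp ((fF_meas _).comp (Measurable.prodMk (Measurable.prodMk (by fun_prop)
        ((meas_snoc m).comp (Measurable.prodMk (by fun_prop) (by fun_prop))))
        ((fG_meas m).comp (Measurable.prodMk (Measurable.prodMk (by fun_prop) (by fun_prop))
          measurable_snd))))
    exact (rho_meas.comp (by fun_prop)).mul ((rho_meas.comp (by fun_prop)).mul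
      (g1.lintegral_prod_right (ν := ν)))
  rw [L1, R1, swap3 volume volume _ hΘ]
  refine lintegral_congr fun q => lintegral_congr fun c => lintegral_congr fun p => ?_
  obtain ⟨r1, r2⟩ := rho_symm p.1 q.1 c
  simp only [← mul_assoc]
  rw [← r1]
  by_cases h0 : rho p.1 * rho (q.1 - c ^ 2 / p.1) = 0
  · rw [h0, zero_mul, zero_mul]
  · obtain ⟨ha, hd, hc⟩ := r2 h0
    congr 1
    refine lintegral_congr fun C0 => ?_
    rw [FG_eq p.1 c q.1 p.2 q.2 C0 ha hd hc]

/-! ### splitting the measures -/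

lemma mpW {α β : Type*} [MeasurableSpace α] [MeasurableSpace β] {μ : Measure α} {ν : Measure β}
    {f : α → β} (hf : MeasurePreserving f μ ν) {S : Set β} (hS : MeasurableSet S) {w : β → ℝ≥0∞}
    (hw : Measurable w) :
    MeasurePreserving f ((μ.restrict (f ⁻¹' S)).withDensity (fun x => w (f x)))
      ((ν.restrict S).withDensity w) := by
  have h1 := hf.restrict_preimage hS
  refine ⟨hf.measurable, ?_⟩
  refine Measure.ext_of_lintegral _ fun φ hφ => ?_
  have hw' : Measurable (fun x => w (f x)) := hw.comp hf.measurable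
  have hφ' : Measurable (fun x => φ (f x)) := hφ.comp hf.measurable
  rw [lintegral_map hφ hf.measurable,
    lintegral_withDensity_eq_lintegral_mul _ hw' hφ',
    lintegral_withDensity_eq_lintegral_mul _ hw hφ]
  exact h1.lintegral_comp (hw.mul hφ)

lemma mp_split {ι ι₁ ι₂ : Type} [Fintype ι] [Fintype ι₁] [Fintype ι₂] (f1 : ι₁ → ι) (f2 : ι₂ → ι)
    (hb : Function.Bijective (Sum.elim f1 f2)) :
    MeasurePreserving (fun v : ι → ℝ => ((fun i => v (f1 i)), (fun j => v (f2 j))))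
      volume (volume.prod volume) := by
  have h1 := (volume_measurePreserving_piCongrLeft (fun _ : ι => ℝ) (Equiv.ofBijective _ hb)).symm
  have h2 := volume_measurePreserving_sumPiEquivProdPi (fun _ : ι₁ ⊕ ι₂ => ℝ)
  exact h2.comp h1

lemma comm4 {α β γ δ : Type*} [MeasurableSpace α] [MeasurableSpace β] [MeasurableSpace γ]
    [MeasurableSpace δ] (μa : Measure α) (μb : Measure β) (μc : Measure γ) (μd : Measure δ)
    [SFinite μa] [SFinite μb] [SFinite μc] [SFinite μd] :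
    MeasurePreserving (fun p : (α × β) × (γ × δ) => ((p.1.1, p.2.1), (p.1.2, p.2.2)))
      ((μa.prod μb).prod (μc.prod μd)) ((μa.prod μc).prod (μb.prod μd)) := by
  have hm : Measurable (fun p : (α × β) × (γ × δ) => ((p.1.1, p.2.1), (p.1.2, p.2.2))) := by
    fun_prop
  refine ⟨hm, Measure.ext_of_lintegral _ fun φ hφ => ?_⟩
  have m1 : Measurable (fun p : (α × β) × (γ × δ) => φ ((p.1.1, p.2.1), (p.1.2, p.2.2))) :=
    hφ.comp hm
  have m2 : Measurable (fun p : α × β => ∫⁻ q, φ ((p.1, q.1), (p.2, q.2)) ∂(μc.prod μd)) :=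
    m1.lintegral_prod_right (ν := μc.prod μd)
  have m3 : Measurable (fun p : α × γ => ∫⁻ q, φ (p, q) ∂(μb.prod μd)) :=
    hφ.lintegral_prod_right' (ν := μb.prod μd)
  rw [lintegral_map hφ hm, lintegral_prod _ m1.aemeasurable, lintegral_prod _ m2.aemeasurable,
    lintegral_prod _ hφ.aemeasurable, lintegral_prod _ m3.aemeasurable]
  refine lintegral_congr fun a => ?_
  have e1 : ∀ b, ∫⁻ q, φ ((a, q.1), (b, q.2)) ∂(μc.prod μd) =
      ∫⁻ c, ∫⁻ d, φ ((a, c), (b, d)) ∂μd ∂μc := by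
    intro b
    have : Measurable (fun q : γ × δ => φ ((a, q.1), (b, q.2))) := hφ.comp (by fun_prop)
    rw [lintegral_prod _ this.aemeasurable]
  have e2 : ∀ c, ∫⁻ q, φ ((a, c), q) ∂(μb.prod μd) =
      ∫⁻ b, ∫⁻ d, φ ((a, c), (b, d)) ∂μd ∂μb := by
    intro c
    have : Measurable (fun q : β × δ => φ ((a, c), q)) := hφ.comp (by fun_prop)
    rw [lintegral_prod _ this.aemeasurable]
  simp only [e1, e2]
  refine lintegral_lintegral_swap (f := fun b c => ∫⁻ d, φ ((a, c), (b, d)) ∂μd) ?_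
  have : Measurable (fun x : (β × γ) × δ => φ ((a, x.1.2), (x.1.1, x.2))) :=
    hφ.comp (by fun_prop)
  exact (this.lintegral_prod_right (ν := μd)).aemeasurable

/-- the measure of one diagonal coordinate -/
noncomputable def Bm' (m : ℕ) : Measure ℝ :=
  (volume.restrict (Ioi 0)).withDensity (fun s : ℝ => ENNReal.ofReal (s ^ (2 * m)))

instance (m : ℕ) : SFinite (Bm' m) := by unfold Bm'; infer_instance

/-- diagonal part of `wU` -/
noncomputable def AU (m : ℕ) : Measure (Fin m → ℝ) :=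
  (volume.restrict (orth m)).withDensity
    (fun s => ENNReal.ofReal (∏ i : Fin m, s i ^ (2 * (m - 1 - (i : ℕ)))))

/-- diagonal part of `wL` -/
noncomputable def AL (m : ℕ) : Measure (Fin m → ℝ) :=
  (volume.restrict (orth m)).withDensity
    (fun t => ENNReal.ofReal (∏ i : Fin m, t i ^ (2 * (i : ℕ))))

instance (m : ℕ) : SFinite (AU m) := by unfold AU; infer_instance
instance (m : ℕ) : SFinite (AL m) := by unfold AL; infer_instance

lemma orth_meas (m : ℕ) : MeasurableSet (orth m) := by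
  have : orth m = ⋂ i : Fin m, {t : Fin m → ℝ | 0 < t i} := by
    ext t; simp [orth]
  rw [this]
  exact MeasurableSet.iInter fun i => measurableSet_lt measurable_const (measurable_pi_apply i)

lemma prod_form {m : ℕ} (g : (Fin m → ℝ) → ℝ) (hg : Measurable g) :
    (Bm' m).prod ((volume.restrict (orth m)).withDensity (fun s => ENNReal.ofReal (g s))) =
      ((volume.prod volume).restrict (Ioi 0 ×ˢ orth m)).withDensity
        (fun p => ENNReal.ofReal (p.1 ^ (2 * m)) * ENNReal.ofReal (g p.2)) := by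
  unfold Bm'
  rw [prod_withDensity (by fun_prop) (by fun_prop), Measure.prod_restrict]

lemma splitU (m : ℕ) :
    MeasurePreserving (fun s : Fin (m + 1) → ℝ => (s 0, fun j : Fin m => s j.succ)) (AU (m + 1))
      ((Bm' m).prod (AU m)) := by
  have h : MeasurePreserving (fun s : Fin (m + 1) → ℝ => (s 0, fun j : Fin m => s j.succ))
      volume (volume.prod volume) :=
    volume_preserving_piFinSuccAbove (fun _ : Fin (m + 1) => ℝ) 0
  have h2 := mpW h (S := Ioi 0 ×ˢ orth m) (measurableSet_Ioi.prod (orth_meas m))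
    (w := fun p => ENNReal.ofReal (p.1 ^ (2 * m)) *
      ENNReal.ofReal (∏ i : Fin m, p.2 i ^ (2 * (m - 1 - (i : ℕ))))) (by fun_prop)
  have e1 : orth (m + 1) = (fun s : Fin (m + 1) → ℝ => (s 0, fun j : Fin m => s j.succ)) ⁻¹'
      (Ioi 0 ×ˢ orth m) := by
    ext s
    exact Fin.forall_fin_succ
  have e2 : ∀ s : Fin (m + 1) → ℝ, ENNReal.ofReal (∏ i, s i ^ (2 * (m + 1 - 1 - (i : ℕ)))) =
      ENNReal.ofReal (s 0 ^ (2 * m)) *
        ENNReal.ofReal (∏ i : Fin m, s i.succ ^ (2 * (m - 1 - (i : ℕ)))) := by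
    intro s
    rw [← ENNReal.ofReal_mul (by rw [pow_mul]; positivity), Fin.prod_univ_succ]
    congr 2
    refine Finset.prod_congr rfl fun i _ => ?_
    congr 2
    simp only [Fin.val_succ]
    omega
  unfold AU
  rw [prod_form _ (by fun_prop), e1]
  simp only [e2]
  exact h2

lemma splitL (m : ℕ) :
    MeasurePreserving (fun s : Fin (m + 1) → ℝ => (s (Fin.last m), fun j : Fin m => s j.castSucc))
      (AL (m + 1)) ((Bm' m).prod (AL m)) := by
  have h : MeasurePreserving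
      (fun s : Fin (m + 1) → ℝ => (s (Fin.last m), fun j : Fin m => s j.castSucc))
      volume (volume.prod volume) := by
    have h0 := volume_preserving_piFinSuccAbove (fun _ : Fin (m + 1) => ℝ) (Fin.last m)
    have e : (fun s : Fin (m + 1) → ℝ => (s (Fin.last m), fun j : Fin m => s j.castSucc)) =
        (MeasurableEquiv.piFinSuccAbove (fun _ : Fin (m + 1) => ℝ) (Fin.last m)) := by
      funext s
      refine Prod.ext rfl ?_
      funext j
      show s j.castSucc = s ((Fin.last m).succAbove j)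
      rw [Fin.succAbove_last]
    rw [e]
    exact h0
  have h2 := mpW h (S := Ioi 0 ×ˢ orth m) (measurableSet_Ioi.prod (orth_meas m))
    (w := fun p => ENNReal.ofReal (p.1 ^ (2 * m)) *
      ENNReal.ofReal (∏ i : Fin m, p.2 i ^ (2 * (i : ℕ)))) (by fun_prop)
  have e1 : orth (m + 1) = (fun s : Fin (m + 1) → ℝ =>
      (s (Fin.last m), fun j : Fin m => s j.castSucc)) ⁻¹' (Ioi 0 ×ˢ orth m) := by
    ext s
    show (∀ i, 0 < s i) ↔ (0 < s (Fin.last m) ∧ ∀ j : Fin m, 0 < s j.castSucc)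
    rw [Fin.forall_fin_succ']
    tauto
  have e2 : ∀ s : Fin (m + 1) → ℝ, ENNReal.ofReal (∏ i, s i ^ (2 * (i : ℕ))) =
      ENNReal.ofReal (s (Fin.last m) ^ (2 * m)) *
        ENNReal.ofReal (∏ i : Fin m, s i.castSucc ^ (2 * (i : ℕ))) := by
    intro s
    rw [← ENNReal.ofReal_mul (by rw [pow_mul]; positivity), Fin.prod_univ_castSucc, mul_comm]
    rfl
  unfold AL
  rw [prod_form _ (by fun_prop), e1]
  simp only [e2]
  exact h2

/-! ### the square -/

lemma lint_scale {m : ℕ} (r : ℝ) (hr : r ≠ 0) (ψ : (Fin m → ℝ) → ℝ≥0∞) (hψ : Measurable ψ) :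
    ∫⁻ z, ψ (r • z) = ENNReal.ofReal |(r ^ m)⁻¹| * ∫⁻ b, ψ b := by
  have h := Measure.map_addHaar_smul (volume : Measure (Fin m → ℝ)) hr
  have h1 : ∫⁻ z, ψ (r • z) = ∫⁻ b, ψ b ∂(Measure.map (fun z : Fin m → ℝ => r • z) volume) := by
    rw [lintegral_map hψ (by fun_prop)]
  have h2 : Measure.map (fun z : Fin m → ℝ => r • z) volume =
      ENNReal.ofReal |(r ^ m)⁻¹| • (volume : Measure (Fin m → ℝ)) := by
    have := h
    rw [Module.finrank_fin_fun] at this
    exact this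
  rw [h1, h2, lintegral_smul_measure, smul_eq_mul]

lemma lint_sq (g : ℝ → ℝ≥0∞) :
    ∫⁻ a, rho a * g a = ∫⁻ s in Ioi (0:ℝ), g (s ^ 2) := by
  have himg : (fun s : ℝ => s ^ 2) '' Ioi 0 = Ioi 0 := by
    ext x
    simp only [mem_image, mem_Ioi]
    constructor
    · rintro ⟨y, hy, rfl⟩; positivity
    · intro hx; exact ⟨Real.sqrt x, Real.sqrt_pos.2 hx, Real.sq_sqrt hx.le⟩
  have h := lintegral_image_eq_lintegral_abs_deriv_mul (f := fun s : ℝ => s ^ 2)
    (f' := fun s => 2 * s) (s := Ioi 0) measurableSet_Ioi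
    (fun x _ => by simpa using (hasDerivAt_pow 2 x).hasDerivWithinAt)
    (by
      intro x hx y hy hxy
      have hx' : 0 < x := hx
      have hy' : 0 < y := hy
      exact (pow_left_inj₀ hx'.le hy'.le two_ne_zero).1 hxy)
    (fun a => ENNReal.ofReal (1 / (2 * Real.sqrt a)) * g a)
  rw [himg] at h
  have h1 : ∫⁻ a, rho a * g a =
      ∫⁻ a in Ioi (0:ℝ), ENNReal.ofReal (1 / (2 * Real.sqrt a)) * g a := by
    rw [← lintegral_indicator measurableSet_Ioi]
    refine lintegral_congr fun a => ?_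
    by_cases ha : 0 < a
    · rw [indicator_of_mem (mem_Ioi.2 ha), rho, if_pos ha]
    · rw [indicator_of_notMem (by simpa using ha), rho, if_neg ha, zero_mul]
  rw [h1, h]
  refine setLIntegral_congr_fun measurableSet_Ioi fun s hs => ?_
  have hs' : 0 < s := hs
  rw [← mul_assoc, Real.sqrt_sq hs'.le, abs_of_pos (by positivity),
    ← ENNReal.ofReal_mul (by positivity)]
  have : 2 * s * (1 / (2 * s)) = 1 := by field_simp
  rw [this, ENNReal.ofReal_one, one_mul]

lemma hmap (m : ℕ) :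
    Measure.map (fun p : ℝ × (Fin m → ℝ) => (p.1 ^ 2, p.1 ^ 2 • p.2)) ((Bm' m).prod volume) =
      kap m := by
  have hm : Measurable (fun p : ℝ × (Fin m → ℝ) => (p.1 ^ 2, p.1 ^ 2 • p.2)) := by fun_prop
  refine Measure.ext_of_lintegral _ fun φ hφ => ?_
  have h1 : Measurable (fun p : ℝ × (Fin m → ℝ) => φ (p.1 ^ 2, p.1 ^ 2 • p.2)) := hφ.comp hm
  have h2 : Measurable (fun p : ℝ × (Fin m → ℝ) => rho p.1 * φ p) :=
    (rho_meas.comp measurable_fst).mul hφ
  rw [lintegral_map hφ hm, lintegral_prod _ h1.aemeasurable, lint_kap _ hφ,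
    Measure.volume_eq_prod, lintegral_prod _ h2.aemeasurable]
  have e1 : ∀ a : ℝ, ∫⁻ b : Fin m → ℝ, rho a * φ (a, b) = rho a * ∫⁻ b, φ (a, b) := fun a =>
    lintegral_const_mul' _ _ (rho_ne_top a)
  simp only [e1]
  rw [lint_sq]
  unfold Bm'
  rw [lintegral_withDensity_eq_lintegral_mul _ (by fun_prop)
    (h1.lintegral_prod_right' (ν := volume))]
  refine setLIntegral_congr_fun measurableSet_Ioi fun s hs => ?_
  have hs' : 0 < s := hs
  simp only [Pi.mul_apply]
  rw [lint_scale (s ^ 2) (by positivity) (fun b => φ (s ^ 2, b)) (hφ.comp (by fun_prop)),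
    ← mul_assoc, ← ENNReal.ofReal_mul (by positivity), abs_of_pos (by positivity)]
  have : s ^ (2 * m) * ((s ^ 2) ^ m)⁻¹ = 1 := by
    rw [← pow_mul]; exact mul_inv_cancel₀ (by positivity)
  rw [this, ENNReal.ofReal_one, one_mul]

/-! ### the matrices -/

/-- last row -/
def rowZ {m : ℕ} (v : LIdx (m + 1) → ℝ) : Fin m → ℝ :=
  fun j => v ⟨(Fin.last m, j.castSucc), Fin.castSucc_lt_last j⟩

/-- the other rows -/
def rowR {m : ℕ} (v : LIdx (m + 1) → ℝ) : LIdx m → ℝ :=
  fun p => v ⟨(p.1.1.castSucc, p.1.2.castSucc), Fin.castSucc_lt_castSucc_iff.mpr p.2⟩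

lemma splitVU (m : ℕ) :
    MeasurePreserving (fun v : LIdx (m + 1) → ℝ => (colZ v, colR v)) volume
      (volume.prod volume) := by
  refine mp_split (fun i : Fin m => (⟨(i.succ, 0), Fin.succ_pos i⟩ : LIdx (m + 1)))
    (fun p : LIdx m => (⟨(p.1.1.succ, p.1.2.succ), Fin.succ_lt_succ_iff.mpr p.2⟩ : LIdx (m + 1)))
    ⟨?_, ?_⟩
  · rintro (a | a) (b | b) h
    · simp only [Sum.elim_inl, Subtype.mk.injEq, Prod.mk.injEq, Fin.succ_inj, and_true] at h
      rw [h]
    · simp only [Sum.elim_inl, Sum.elim_inr, Subtype.mk.injEq, Prod.mk.injEq] at h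
      exact absurd h.2.symm (Fin.succ_ne_zero _)
    · simp only [Sum.elim_inl, Sum.elim_inr, Subtype.mk.injEq, Prod.mk.injEq] at h
      exact absurd h.2 (Fin.succ_ne_zero _)
    · simp only [Sum.elim_inr, Subtype.mk.injEq, Prod.mk.injEq, Fin.succ_inj] at h
      rw [Sum.inr.injEq]
      exact Subtype.ext (Prod.ext h.1 h.2)
  · rintro ⟨⟨i, j⟩, h⟩
    have hi : i ≠ 0 := fun h0 => by
      subst h0; exact absurd h (Fin.not_lt_zero _)
    obtain ⟨i', rfl⟩ := Fin.exists_succ_eq.2 hi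
    by_cases hj : j = 0
    · subst hj
      exact ⟨Sum.inl i', rfl⟩
    · obtain ⟨j', rfl⟩ := Fin.exists_succ_eq.2 hj
      exact ⟨Sum.inr ⟨(i', j'), Fin.succ_lt_succ_iff.1 h⟩, rfl⟩

lemma splitVL (m : ℕ) :
    MeasurePreserving (fun v : LIdx (m + 1) → ℝ => (rowZ v, rowR v)) volume
      (volume.prod volume) := by
  refine mp_split
    (fun j : Fin m => (⟨(Fin.last m, j.castSucc), Fin.castSucc_lt_last j⟩ : LIdx (m + 1)))
    (fun p : LIdx m => (⟨(p.1.1.castSucc, p.1.2.castSucc),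
      Fin.castSucc_lt_castSucc_iff.mpr p.2⟩ : LIdx (m + 1)))
    ⟨?_, ?_⟩
  · rintro (a | a) (b | b) h
    · simp only [Sum.elim_inl, Subtype.mk.injEq, Prod.mk.injEq, Fin.castSucc_inj, true_and] at h
      rw [h]
    · simp only [Sum.elim_inl, Sum.elim_inr, Subtype.mk.injEq, Prod.mk.injEq] at h
      exact absurd h.1.symm (Fin.castSucc_lt_last _).ne
    · simp only [Sum.elim_inl, Sum.elim_inr, Subtype.mk.injEq, Prod.mk.injEq] at h
      exact absurd h.1 (Fin.castSucc_lt_last _).ne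
    · simp only [Sum.elim_inr, Subtype.mk.injEq, Prod.mk.injEq, Fin.castSucc_inj] at h
      rw [Sum.inr.injEq]
      exact Subtype.ext (Prod.ext h.1 h.2)
  · rintro ⟨⟨i, j⟩, h⟩
    have hj : j ≠ Fin.last m := fun h0 => by
      subst h0; exact absurd h (not_lt.2 (Fin.le_last _))
    obtain ⟨j', rfl⟩ := Fin.exists_castSucc_eq.2 hj
    by_cases hi : i = Fin.last m
    · subst hi
      exact ⟨Sum.inl j', rfl⟩
    · obtain ⟨i', rfl⟩ := Fin.exists_castSucc_eq.2 hi
      exact ⟨Sum.inr ⟨(i', j'), Fin.castSucc_lt_castSucc_iff.1 h⟩, rfl⟩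

/-- entries of `MU` -/
lemma MU_apply {m : ℕ} (q : (Fin m → ℝ) × (LIdx m → ℝ)) (i j : Fin m) :
    MU q i j = ∑ k, lM q.2 i k * q.1 k ^ 2 * lM q.2 j k := by
  simp [MU, Matrix.mul_apply, Matrix.diagonal_apply, Matrix.transpose_apply]

lemma ML_apply {m : ℕ} (q : (Fin m → ℝ) × (LIdx m → ℝ)) (i j : Fin m) :
    ML q i j = ∑ k, lM q.2 k i * q.1 k ^ 2 * lM q.2 k j := by
  simp [ML, Matrix.mul_apply, Matrix.diagonal_apply, Matrix.transpose_apply]

lemma lM_meas {m : ℕ} (i j : Fin m) : Measurable (fun v : LIdx m → ℝ => lM v i j) := by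
  unfold lM
  by_cases h : j < i
  · simp only [h, dif_pos]; exact measurable_pi_apply _
  · simp only [h, dif_neg, not_false_eq_true]; exact measurable_const

section
variable {m : ℕ} (v : LIdx (m + 1) → ℝ) (i j : Fin m)

lemma lM00 : lM v 0 0 = 1 := by simp [lM]
lemma lM0s : lM v 0 j.succ = 0 := by
  simp [lM, (Fin.succ_ne_zero j).symm]
lemma lMs0 : lM v i.succ 0 = colZ v i := by
  simp [lM, colZ, Fin.succ_pos]
lemma lMss : lM v i.succ j.succ = lM (colR v) i j := by
  simp [lM, colR, Fin.succ_lt_succ_iff, Fin.succ_inj]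
lemma lMll : lM v (Fin.last m) (Fin.last m) = 1 := by simp [lM]
lemma lMlc : lM v (Fin.last m) j.castSucc = rowZ v j := by
  simp [lM, rowZ, Fin.castSucc_lt_last]
lemma lMcl : lM v i.castSucc (Fin.last m) = 0 := by
  have h1 : ¬ Fin.last m < i.castSucc := not_lt.2 (Fin.le_last _)
  have h2 : i.castSucc ≠ Fin.last m := (Fin.castSucc_lt_last i).ne
  simp [lM, h1, h2]
lemma lMcc : lM v i.castSucc j.castSucc = lM (rowR v) i j := by
  simp [lM, rowR, Fin.castSucc_lt_castSucc_iff, Fin.castSucc_inj]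
end

lemma MU_succ {m : ℕ} (q : (Fin (m + 1) → ℝ) × (LIdx (m + 1) → ℝ)) :
    (fun i j => MU q i j : Mt (m + 1)) =
      fF ((q.1 0 ^ 2, q.1 0 ^ 2 • colZ q.2),
        (fun i j => MU ((fun k : Fin m => q.1 k.succ), colR q.2) i j)) := by
  funext i j
  refine Fin.cases ?_ (fun i' => ?_) i <;> refine Fin.cases ?_ (fun j' => ?_) j
  · rw [fF00, MU_apply, Fin.sum_univ_succ]
    simp [lM00, lM0s]
  · rw [fF0s, MU_apply, Fin.sum_univ_succ]
    simp [lM00, lM0s, lMs0]
  · rw [fFs0, MU_apply, Fin.sum_univ_succ]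
    simp [lM00, lM0s, lMs0, mul_comm]
  · rw [fFss, MU_apply, Fin.sum_univ_succ]
    simp only [MU_apply, lMs0, lMss, Pi.smul_apply, smul_eq_mul]
    rw [add_comm]
    congr 1
    by_cases h : q.1 0 = 0
    · simp [h]
    · field_simp

lemma ML_succ {m : ℕ} (q : (Fin (m + 1) → ℝ) × (LIdx (m + 1) → ℝ)) :
    (fun i j => ML q i j : Mt (m + 1)) =
      fG ((q.1 (Fin.last m) ^ 2, q.1 (Fin.last m) ^ 2 • rowZ q.2),
        (fun i j => ML ((fun k : Fin m => q.1 k.castSucc), rowR q.2) i j)) := by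
  funext i j
  refine Fin.lastCases ?_ (fun i' => ?_) i <;> refine Fin.lastCases ?_ (fun j' => ?_) j
  · rw [fG00, ML_apply, Fin.sum_univ_castSucc]
    simp [lMll, lMcl]
  · rw [fG0s, ML_apply, Fin.sum_univ_castSucc]
    simp [lMll, lMcl, lMlc]
  · rw [fGs0, ML_apply, Fin.sum_univ_castSucc]
    simp [lMll, lMcl, lMlc, mul_comm]
  · rw [fGss, ML_apply, Fin.sum_univ_castSucc]
    simp only [ML_apply, lMlc, lMcc, Pi.smul_apply, smul_eq_mul]
    congr 1
    by_cases h : q.1 (Fin.last m) = 0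
    · simp [h]
    · field_simp

lemma MU_meas (m : ℕ) : Measurable (fun q => (fun i j => MU q i j : Mt m)) := by
  refine measurable_pi_iff.2 fun i => measurable_pi_iff.2 fun j => ?_
  simp only [MU_apply]
  refine Finset.measurable_sum _ fun k _ => ?_
  exact (((lM_meas i k).comp measurable_snd).mul (by fun_prop)).mul
    ((lM_meas j k).comp measurable_snd)

lemma ML_meas (m : ℕ) : Measurable (fun q => (fun i j => ML q i j : Mt m)) := by
  refine measurable_pi_iff.2 fun i => measurable_pi_iff.2 fun j => ?_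
  simp only [ML_apply]
  refine Finset.measurable_sum _ fun k _ => ?_
  exact (((lM_meas k i).comp measurable_snd).mul (by fun_prop)).mul
    ((lM_meas k j).comp measurable_snd)

/-- the image of `wU` -/
noncomputable def nuU (m : ℕ) : Measure (Mt m) := Measure.map (fun q => (fun i j => MU q i j)) (wU m)
/-- the image of `wL` -/
noncomputable def nuL (m : ℕ) : Measure (Mt m) := Measure.map (fun q => (fun i j => ML q i j)) (wL m)

lemma wU_eq (m : ℕ) : wU m = (AU m).prod volume := rfl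
lemma wL_eq (m : ℕ) : wL m = (AL m).prod volume := rfl

instance (m : ℕ) : SFinite (wU m) := by rw [wU_eq]; infer_instance
instance (m : ℕ) : SFinite (wL m) := by rw [wL_eq]; infer_instance
instance (m : ℕ) : SFinite (nuU m) := by unfold nuU; infer_instance
instance (m : ℕ) : SFinite (nuL m) := by unfold nuL; infer_instance

lemma step_gen {m : ℕ} {w' : Measure ((Fin (m + 1) → ℝ) × (LIdx (m + 1) → ℝ))}
    {w : Measure ((Fin m → ℝ) × (LIdx m → ℝ))} [SFinite w]
    (M' : (Fin (m + 1) → ℝ) × (LIdx (m + 1) → ℝ) → Mt (m + 1))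
    (M : (Fin m → ℝ) × (LIdx m → ℝ) → Mt m) (hM : Measurable M)
    (f : (ℝ × (Fin m → ℝ)) × Mt m → Mt (m + 1)) (hf : Measurable f)
    (sp : (Fin (m + 1) → ℝ) × (LIdx (m + 1) → ℝ) → (ℝ × (Fin m → ℝ)) × ((Fin m → ℝ) × (LIdx m → ℝ)))
    (hsp : MeasurePreserving sp w' (((Bm' m).prod volume).prod w))
    (hMM : ∀ q, M' q = f (((sp q).1.1 ^ 2, (sp q).1.1 ^ 2 • (sp q).1.2), M (sp q).2)) :
    Measure.map M' w' = Measure.map f ((kap m).prod (Measure.map M w)) := by
  have hh : Measurable (fun p : ℝ × (Fin m → ℝ) => (p.1 ^ 2, p.1 ^ 2 • p.2)) := by fun_prop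
  have e : M' = f ∘ (Prod.map (fun p : ℝ × (Fin m → ℝ) => (p.1 ^ 2, p.1 ^ 2 • p.2)) M) ∘ sp := by
    funext q; exact hMM q
  rw [e, ← Measure.map_map hf ((hh.prodMap hM).comp hsp.measurable),
    ← Measure.map_map (hh.prodMap hM) hsp.measurable, hsp.map_eq,
    ← Measure.map_prod_map _ _ hh hM, hmap]

lemma nuU_succ (m : ℕ) : nuU (m + 1) = opF (nuU m) := by
  refine step_gen _ _ (MU_meas m) fF (fF_meas m)
    (fun q => ((q.1 0, colZ q.2), ((fun k : Fin m => q.1 k.succ), colR q.2))) ?_ MU_succ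
  have h1 := (splitU m).prod (splitVU m)
  have h2 := comm4 (Bm' m) (AU m) (volume : Measure (Fin m → ℝ)) (volume : Measure (LIdx m → ℝ))
  exact h2.comp h1

lemma nuL_succ (m : ℕ) : nuL (m + 1) = opG (nuL m) := by
  refine step_gen _ _ (ML_meas m) fG (fG_meas m)
    (fun q => ((q.1 (Fin.last m), rowZ q.2), ((fun k : Fin m => q.1 k.castSucc), rowR q.2))) ?_
    ML_succ
  have h1 := (splitL m).prod (splitVL m)
  have h2 := comm4 (Bm' m) (AL m) (volume : Measure (Fin m → ℝ)) (volume : Measure (LIdx m → ℝ))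
  exact h2.comp h1

lemma nu_zero : nuU 0 = nuL 0 := by
  unfold nuU nuL
  have e1 : wU 0 = wL 0 := by
    rw [wU_eq, wL_eq]
    have : AU 0 = AL 0 := by
      unfold AU AL
      simp
    rw [this]
  rw [e1]
  congr 1

lemma fFG_zero : (fF (m := 0)) = fG := by
  funext p i j
  obtain ⟨i, hi⟩ := i
  obtain ⟨j, hj⟩ := j
  obtain rfl : i = 0 := by omega
  obtain rfl : j = 0 := by omega
  exact (fG00 p).symm

theorem nu_eq : ∀ m : ℕ, nuU m = nuL m ∧ nuU (m + 1) = nuL (m + 1) := by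
  intro m
  induction m with
  | zero =>
    refine ⟨nu_zero, ?_⟩
    rw [nuU_succ, nuL_succ, nu_zero, opF, opG, fFG_zero]
  | succ m ih =>
    refine ⟨ih.2, ?_⟩
    rw [nuU_succ, ih.2, nuL_succ, opFG, ← ih.1, ← nuU_succ, ih.2, ← nuL_succ]

/-- **EXCH** -/
theorem t_exch : S_EXCH := fun m => (nu_eq m).1

end Pool.Agent.W291.WH
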